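import Pool.Agent.H41.CO.Defs

set_option autoImplicit false

/-!
# Cycle odd-covers: the choice of the parameters
-/

namespace Pool.Agent.H32.CO

open Filter Topology
open Pool.Agent.H41.CO

theorem num_aux (k : ℕ) (y : ℝ) (hy : 224 ≤ y) (hk : y ^ 40 = k)
    (he : 80 * (y ^ 90 * Real.exp (-y)) ≤ 1) :
    ∃ p q t : ℕ, p.Prime ∧ 1 ≤ q ∧ q ^ 2 ≤ p ∧
      20 * (p : ℝ) * (k : ℝ) ^ 2 * Real.exp (-(2 * (t : ℝ) ^ 2 / k)) ≤ 1 ∧
      (total k p q t : ℝ) ≤ k + y ^ 36 := by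
  have hy1 : (1 : ℝ) ≤ y := by linarith
  have hy0 : (0 : ℝ) < y := by linarith
  have hpow : ∀ a b : ℕ, a ≤ b → y ^ a ≤ y ^ b := fun a b h => pow_le_pow_right₀ hy1 h
  have h10 : (1 : ℝ) ≤ y ^ 10 := one_le_pow₀ hy1
  have h22 : (1 : ℝ) ≤ y ^ 22 := one_le_pow₀ hy1
  obtain ⟨n, hn⟩ : ∃ n : ℕ, n = ⌈y ^ 10⌉₊ := ⟨_, rfl⟩
  have hn1 : y ^ 10 ≤ n := by rw [hn]; exact Nat.le_ceil _
  have hn2 : (n : ℝ) < y ^ 10 + 1 := by rw [hn]; exact Nat.ceil_lt_add_one (by positivity)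
  have hn0 : n ≠ 0 := by
    rintro rfl
    rw [Nat.cast_zero] at hn1
    linarith
  obtain ⟨t, ht⟩ : ∃ t : ℕ, t = ⌈y ^ 22⌉₊ := ⟨_, rfl⟩
  have ht1 : y ^ 22 ≤ t := by rw [ht]; exact Nat.le_ceil _
  have ht2 : (t : ℝ) < y ^ 22 + 1 := by rw [ht]; exact Nat.ceil_lt_add_one (by positivity)
  obtain ⟨p, hp, hnp, hp2⟩ := Nat.exists_prime_lt_and_le_two_mul n hn0
  have hp1' : (n : ℝ) < p := by exact_mod_cast hnp
  have hp2' : (p : ℝ) ≤ 2 * n := by exact_mod_cast hp2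
  have hpu : (p : ℝ) ≤ 4 * y ^ 10 := by linarith
  have hpl : y ^ 10 < (p : ℝ) := by linarith
  have hppos : 0 < p := hp.pos
  obtain ⟨q, hq⟩ : ∃ q : ℕ, q = Nat.sqrt p := ⟨_, rfl⟩
  have hq1 : 1 ≤ q := by
    rw [hq, Nat.one_le_iff_ne_zero, Ne, Nat.sqrt_eq_zero]
    exact hppos.ne'
  have hq2 : q ^ 2 ≤ p := by rw [hq]; exact Nat.sqrt_le' p
  have hq3 : p < (q + 1) ^ 2 := by rw [hq]; exact Nat.lt_succ_sqrt' p
  have hq3' : (p : ℝ) < ((q : ℝ) + 1) ^ 2 := by exact_mod_cast hq3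
  have hq1' : (1 : ℝ) ≤ q := by exact_mod_cast hq1
  have hq4 : y ^ 5 < (q : ℝ) + 1 := by
    have h1 : (y ^ 5) ^ 2 < ((q : ℝ) + 1) ^ 2 := by
      have h2 : (y ^ 5) ^ 2 = y ^ 10 := by ring
      rw [h2]
      linarith
    exact lt_of_pow_lt_pow_left₀ 2 (by positivity) h1
  have hq5 : y ^ 5 ≤ 2 * q := by linarith
  refine ⟨p, q, t, hp, hq1, hq2, ?_, ?_⟩
  · have h1 : y ^ 44 ≤ (t : ℝ) ^ 2 := by
      have h2 : y ^ 44 = (y ^ 22) ^ 2 := by rw [← pow_mul]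
      rw [h2]
      exact pow_le_pow_left₀ (by positivity) ht1 2
    have hk0 : (0 : ℝ) < k := by rw [← hk]; positivity
    have h2 : y ≤ 2 * (t : ℝ) ^ 2 / k := by
      rw [le_div_iff₀ hk0, ← hk]
      have h3 : y * y ^ 40 ≤ y ^ 44 := by
        have h4 := hpow 41 44 (by norm_num)
        have h5 : y * y ^ 40 = y ^ 41 := by ring
        rw [h5]
        exact h4
      have h6 : 0 ≤ y ^ 44 := by positivity
      linarith
    have h3 : Real.exp (-(2 * (t : ℝ) ^ 2 / k)) ≤ Real.exp (-y) :=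
      Real.exp_le_exp.2 (by linarith)
    calc 20 * (p : ℝ) * (k : ℝ) ^ 2 * Real.exp (-(2 * (t : ℝ) ^ 2 / k)) ≤
          20 * (4 * y ^ 10) * (y ^ 40) ^ 2 * Real.exp (-y) := by
          rw [← hk]
          gcongr
          rw [hk]
          exact h2
      _ = 80 * (y ^ 90 * Real.exp (-y)) := by ring
      _ ≤ 1 := he
  · obtain ⟨a, ha⟩ : ∃ a : ℕ, a = k / p := ⟨_, rfl⟩
    obtain ⟨P, hP⟩ : ∃ P : ℕ, P = p - 1 := ⟨_, rfl⟩
    have hPp : P + 1 = p := by omega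
    have hPa : P * a ≤ k := by
      rw [ha]
      calc P * (k / p) ≤ p * (k / p) := Nat.mul_le_mul_right _ (by omega)
        _ ≤ k := Nat.mul_div_le k p
    have hPa' : (P : ℝ) * a ≤ k := by exact_mod_cast hPa
    have hPu : (P : ℝ) ≤ 4 * y ^ 10 := by
      have h1 : (P : ℝ) + 1 = p := by exact_mod_cast hPp
      linarith
    have hP0 : (0 : ℝ) ≤ P := Nat.cast_nonneg _
    have ha1 : (a : ℝ) ≤ y ^ 30 := by
      have h1 : (a : ℝ) * p ≤ k := by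
        rw [ha]
        exact_mod_cast Nat.div_mul_le_self k p
      have h2 : (a : ℝ) * y ^ 10 ≤ a * p := mul_le_mul_of_nonneg_left hpl.le (Nat.cast_nonneg _)
      have h3 : (a : ℝ) * y ^ 10 ≤ y ^ 30 * y ^ 10 := by
        have h4 : y ^ 30 * y ^ 10 = y ^ 40 := by ring
        rw [h4]
        linarith
      exact le_of_mul_le_mul_right h3 (by positivity)
    have ht3 : (t : ℝ) + 1 ≤ 3 * y ^ 22 := by linarith
    have ht0 : (0 : ℝ) ≤ (t : ℝ) + 1 := by positivity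
    have hPt : (P : ℝ) * (t + 1) ≤ 12 * y ^ 32 := by
      calc (P : ℝ) * (t + 1) ≤ (4 * y ^ 10) * (3 * y ^ 22) :=
            mul_le_mul hPu ht3 ht0 (by positivity)
        _ = 12 * y ^ 32 := by ring
    have hdiv : (((P * (a + t + 1)) / q : ℕ) : ℝ) ≤ 26 * y ^ 35 := by
      have h1 : (((P * (a + t + 1)) / q : ℕ) : ℝ) * q ≤ ((P * (a + t + 1) : ℕ) : ℝ) := by
        exact_mod_cast Nat.div_mul_le_self _ _
      have h2 : ((P * (a + t + 1) : ℕ) : ℝ) ≤ 13 * y ^ 40 := by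
        push_cast
        have h3 := hpow 32 40 (by norm_num)
        have h4 : (P : ℝ) * (a + t + 1) = P * a + P * (t + 1) := by ring
        rw [h4]
        linarith
      have h5 : (((P * (a + t + 1)) / q : ℕ) : ℝ) * y ^ 5 ≤
          (((P * (a + t + 1)) / q : ℕ) : ℝ) * (2 * q) :=
        mul_le_mul_of_nonneg_left hq5 (Nat.cast_nonneg _)
      have h6 : (((P * (a + t + 1)) / q : ℕ) : ℝ) * y ^ 5 ≤ (26 * y ^ 35) * y ^ 5 := by
        have h7 : (26 * y ^ 35) * y ^ 5 = 2 * (13 * y ^ 40) := by ring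
        rw [h7]
        linarith
      exact le_of_mul_le_mul_right h6 (by positivity)
    have hT : (total k p q t : ℝ) = P * (a + t + 1) + 2 * ((a + t + 1) +
        2 * (P * (2 * t + 2) + ((((P * (a + t + 1)) / q : ℕ) : ℝ) + 1))) := by
      rw [total, ← hP, ← ha]
      push_cast
      ring
    rw [hT]
    have e1 : (P : ℝ) * (a + t + 1) = P * a + P * (t + 1) := by ring
    have e2 : (P : ℝ) * (2 * t + 2) = 2 * (P * (t + 1)) := by ring
    rw [e1, e2]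
    have h30 := hpow 30 35 (by norm_num)
    have h22' := hpow 22 35 (by norm_num)
    have h32 := hpow 32 35 (by norm_num)
    have h0 : (1 : ℝ) ≤ y ^ 35 := one_le_pow₀ hy1
    have h36 : 224 * y ^ 35 ≤ y ^ 36 := by
      have h1 : y ^ 36 = y * y ^ 35 := by ring
      rw [h1]
      exact mul_le_mul_of_nonneg_right hy (by positivity)
    linarith

/-- E12 -/
theorem num : S_NUM := by
  have h1 : Tendsto (fun k : ℕ => (k : ℝ) ^ (1 / 40 : ℝ)) atTop atTop :=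
    (tendsto_rpow_atTop (by norm_num)).comp tendsto_natCast_atTop_atTop
  have h2 : Tendsto (fun x : ℝ => 80 * (x ^ 90 * Real.exp (-x))) atTop (𝓝 (80 * 0)) :=
    (Real.tendsto_pow_mul_exp_neg_atTop_nhds_zero 90).const_mul 80
  rw [mul_zero] at h2
  have h3 : ∀ᶠ k : ℕ in atTop, 80 * (((k : ℝ) ^ (1 / 40 : ℝ)) ^ 90 *
      Real.exp (-((k : ℝ) ^ (1 / 40 : ℝ)))) ≤ 1 :=
    (h2.comp h1).eventually (ge_mem_nhds one_pos)
  obtain ⟨k₀, hk₀⟩ := eventually_atTop.1 ((h1.eventually_ge_atTop 224).and h3)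
  refine ⟨k₀, fun k hk => ?_⟩
  obtain ⟨h4, h5⟩ := hk₀ k hk
  have hk0 : (0 : ℝ) ≤ k := Nat.cast_nonneg k
  have e1 : ((k : ℝ) ^ (1 / 40 : ℝ)) ^ 40 = k := by
    rw [← Real.rpow_natCast, ← Real.rpow_mul hk0]
    norm_num
  have e2 : ((k : ℝ) ^ (1 / 40 : ℝ)) ^ 36 = (k : ℝ) ^ (9 / 10 : ℝ) := by
    rw [← Real.rpow_natCast, ← Real.rpow_mul hk0]
    norm_num
  rw [← e2]
  exact num_aux k _ h4 e1 h5

end Pool.Agent.H32.CO
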